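import Pool.Agent.YUT.H1

/-!
# Yudovich's conjecture Q1: no state is stable in `C^{1,α}`

`GradientGrowth.result`: near every vorticity `ws` (in particular near every steady state) in
`C^{1,α}(M)` there is an initial vorticity `w₀` all of whose Euler evolutions satisfy
`‖w(t)‖_{C^{1,α}} ≥ c t^{1+α}` for all times; in particular `ws` is not Lyapunov stable. Here `M`
is a plane domain (`p = 0`) and `ws` is as in `Good` (disks, ellipses, star-shaped domains with a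
hole: every `ws`; star-shaped domains: every `ws` of mean zero or of large energy), or `M` is a flat
channel `(ℝ/pℤ) × (0,h)` and `ws` is arbitrary.
-/

open MeasureTheory Set Filter Topology
open scoped ContDiff

namespace Pool.Agent.Results.MP_fb2db9_an.GradientGrowth

open Pool.Agent.YUD Pool.Agent.YUT

theorem result {p : ℝ} {M : Set ℂ} {α : ℝ} (hα : 0 < α) (hα1 : α < 1) {ws : ℂ → ℝ}
    (hG : PGood p M ws) {K : ℝ} (hws : NormLe M α K ws) :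
    ¬ PStableFlow p M α ws ∧ ∀ ε > 0, ∃ w₀ : ℂ → ℝ, Per p M w₀ ∧
      NormLe M α ε (fun x => w₀ x - ws x) ∧ ∃ c > 0,
        ∀ (ψ : ℝ → ℂ → ℝ) (Φ : ℝ → ℂ → ℂ), PFlow p M w₀ ψ Φ →
          (∀ t, 0 ≤ t → ContDiffOn ℝ 2 (Φ t) M) → ∀ t, 0 ≤ t →
            ∀ K : ℝ, NormLe M α K (lap (ψ t)) → c * t ^ (1 + α) ≤ K := by
  obtain ⟨hM, hne⟩ := pgood_open hG
  have key : ∀ ε > 0, ∃ w₀ : ℂ → ℝ, Per p M w₀ ∧ NormLe M α ε (fun x => w₀ x - ws x) ∧
      ∃ c > 0, ∀ (ψ : ℝ → ℂ → ℝ) (Φ : ℝ → ℂ → ℂ), PFlow p M w₀ ψ Φ →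
        (∀ t, 0 ≤ t → ContDiffOn ℝ 2 (Φ t) M) → ∀ t, 0 ≤ t →
          ∀ K : ℝ, NormLe M α K (lap (ψ t)) → c * t ^ (1 + α) ≤ K := by
    intro ε hε
    obtain ⟨w₀, h0, h1, h2, h3⟩ := pgood_holder_one hα hα1 hG hws hε
    obtain ⟨c, hc, h4⟩ := pholder_one_growth hM hα hα1 h2 h3
    exact ⟨w₀, h0, h1, c, hc, fun ψ Φ h hC t ht K hK => h4 ψ Φ h t ht (hC t ht) K hK⟩
  refine ⟨fun hst => ?_, key⟩
  obtain ⟨δ, hδ, hst⟩ := hst 1 one_pos
  obtain ⟨w₀, h0, h1, c, hc, h2⟩ := key δ hδ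
  obtain ⟨ψ, Φ, hF, hC, hN⟩ := hst w₀ h0 h1
  have hb : ∀ t, 0 ≤ t → NormLe M α (1 + K) (lap (ψ t)) := by
    intro t ht
    have h3 := (hN t ht).add hM hws
    simpa using h3
  have hK : 0 ≤ K := hws.nonneg
  have hα' : 0 < 1 + α := by linarith
  -- a time at which the growth contradicts the bound
  set t₁ : ℝ := ((2 + K) / c) ^ (1 / (1 + α)) with ht₁
  have ht0 : 0 ≤ t₁ := by positivity
  have h3 := h2 ψ Φ hF hC t₁ ht0 _ (hb t₁ ht0)
  have h4 : t₁ ^ (1 + α) = (2 + K) / c := by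
    rw [ht₁, ← Real.rpow_mul (by positivity), one_div_mul_cancel hα'.ne', Real.rpow_one]
  rw [h4, mul_div_cancel₀ _ hc.ne'] at h3
  linarith

end Pool.Agent.Results.MP_fb2db9_an.GradientGrowth
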