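import Pool.Agent.YUB.S7

/-!
# Yudovich's conjecture Q2 in all plane domains, flat channels and flat tori: unbounded growth

`UnboundedGrowth.result`: let `M` be a bounded open set of the plane, a flat channel or a flat
torus, let `ws` be in `C^α(M)` (in particular a steady state) and little Hölder near one point
(in particular, let it be in `C^{α'}` near one point for some `α' > α`). Arbitrarily close to `ws`
in `C^α(M)` there is an initial vorticity `w₀`, of the same mean, such that for every Euler evolution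
`w` of `w₀` and every `K` there is `T > 0` such that every time interval of length `T` contains a
time `t` with `‖w(t)‖_{C^α} > K`, even for the norm on the image of a given ball under the flow.
-/

open MeasureTheory Set Filter Topology
open scoped ContDiff

namespace Pool.Agent.Results.MP_fb2db9_an.UnboundedGrowth

open Pool.Agent.YUD Pool.Agent.YUT Pool.Agent.YUB

theorem result {p q : ℝ} {M : Set ℂ} (hD : Dom p q M) {α : ℝ} (hα : 0 < α) (hα1 : α < 1)
    {ws : ℂ → ℝ} (hper : Per2 p q M ws) {K₀ : ℝ} (hws : HNormLe M α K₀ ws) {x₀ : ℂ} {ρ₀ : ℝ}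
    (hρ₀ : 0 < ρ₀) (hB : Metric.ball x₀ ρ₀ ⊆ M) (hl : Little (Metric.ball x₀ ρ₀) α ws) {ε : ℝ}
    (hε : 0 < ε) :
    ∃ w₀ : ℂ → ℝ, Per2 p q M w₀ ∧ (∫ x in Cell p q M, (w₀ x - ws x)) = 0 ∧
      HNormLe M α ε (fun x => w₀ x - ws x) ∧
      ∀ (ψ : ℝ → ℂ → ℝ) (Φ : ℝ → ℂ → ℂ), QFlow p q M w₀ ψ Φ → ∀ K : ℝ, ∃ T, 0 < T ∧
        ∀ s, 0 ≤ s → ∃ t, s ≤ t ∧ t ≤ s + T ∧
          ¬ HNormLe (Φ t '' Metric.ball x₀ ρ₀) α K (lap (ψ t)) :=
  unbounded_growth hD hα hα1 hper hws hρ₀ hB hl hε

end Pool.Agent.Results.MP_fb2db9_an.UnboundedGrowth
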