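import Pool.Agent.YUT.H1

/-!
# Yudovich's conjecture Q2: growth of the Hölder norm of vorticity near every state

`VorticityGrowth.result`: near every vorticity `ws` (in particular near every steady state) in
`C^α(M)` there is an initial vorticity `w₀` all of whose Euler evolutions satisfy
`‖w(t)‖_{C^α} ≥ c t^α` for all times. Here `M` is a plane domain (`p = 0`) and `ws` is as in `Good`
(disks, ellipses, star-shaped domains with a hole: every `ws`; star-shaped domains: every `ws` of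
mean zero or of large energy), or `M` is a flat channel `(ℝ/pℤ) × (0,h)` and `ws` is arbitrary.
-/

open MeasureTheory Set Filter Topology
open scoped ContDiff

namespace Pool.Agent.Results.MP_fb2db9_an.VorticityGrowth

open Pool.Agent.YUD Pool.Agent.YUT

theorem result {p : ℝ} {M : Set ℂ} {α : ℝ} (hα : 0 < α) (hα1 : α < 1) {ws : ℂ → ℝ}
    (hG : PGood p M ws) {K : ℝ} (hws : HNormLe M α K ws) {ε : ℝ} (hε : 0 < ε) :
    ∃ w₀ : ℂ → ℝ, Per p M w₀ ∧ HNormLe M α ε (fun x => w₀ x - ws x) ∧ ∃ c > 0,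
      ∀ (ψ : ℝ → ℂ → ℝ) (Φ : ℝ → ℂ → ℂ), PFlow p M w₀ ψ Φ → ∀ t, 0 ≤ t →
        ∀ K : ℝ, HNormLe M α K (lap (ψ t)) → c * t ^ α ≤ K := by
  obtain ⟨hM, hne⟩ := pgood_open hG
  obtain ⟨w₀, h0, h1, h2, h3⟩ := pgood_holder hα hα1 hG hws hε
  exact ⟨w₀, h0, h1, pholder_growth hM hne hα hα1 h2 h3⟩

end Pool.Agent.Results.MP_fb2db9_an.VorticityGrowth
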