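import Pool.Agent.YUS.Final
import Pool.Agent.YUS.X1
import Pool.Agent.YUS.X2
import Pool.Agent.YUS.X3
import Pool.Agent.YUR.Fin

/-!
# Yudovich's instability conjecture (Q1) on every compact Riemannian surface

(1) Let `X` be a closed Riemannian surface (`Surf`), `M = X` or `M` a nonempty open subset of `X` whose complement
has interior points, `0 < α < 1`, and let `ws` be in `C^{1,α}(M)` (in particular, any steady state). Then `ws` is not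
Lyapunov stable in `C^{1,α}(M)`. More precisely, arbitrarily close to `ws` in `C^{1,α}(M)` there is an initial
vorticity `w₀`, equal to `ws` off a disk in `M`, with the same integral, such that
`sup_t ‖w(t)‖_{C^{1,α}} = ∞` for every Euler evolution `w` of `w₀`.

(2) The same for bounded plane domains, flat channels and flat tori, in plane coordinates.

(3)-(5) The Riemann sphere, the quotients of the plane by lattices and the quotients of the unit disk by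
groups of automorphisms, with any smooth conformal metric, are surfaces in the sense of `Surf`. By the uniformization
theorem these are all closed oriented Riemannian surfaces. A compact surface with boundary is, up to its boundary, a
set `M` as in (1) in a closed surface.
-/

open MeasureTheory Set Filter Topology
open scoped ContDiff

namespace Pool.Agent.Results.MP_fb2db9_an.YudovichInstability

open Pool.Agent.YUD Pool.Agent.YUT Pool.Agent.YUB Pool.Agent.YUR Pool.Agent.YUS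

theorem result {α : ℝ} (hα : 0 < α) (hα1 : α < 1) :
    (∀ (X : Type) [TopologicalSpace X] [T2Space X] [CompactSpace X] [ConnectedSpace X] (S : Surf X)
      (M : Set X), Fluid M → ∀ (ws : X → ℝ) (K₀ : ℝ), S.Norm M α K₀ ws →
        ¬ S.QStable M α ws ∧
        ∀ ε > 0, ∃ (w₀ : X → ℝ) (a : X) (ρ : ℝ), 0 < ρ ∧ Metric.ball 0 ρ ⊆ S.D M a ∧
          (∀ x, x ∉ S.E a '' Metric.ball 0 ρ → w₀ x = ws x) ∧
          (∫ v in Metric.ball (0 : ℂ) ρ, (w₀ (S.E a v) - ws (S.E a v)) * S.den a v) = 0 ∧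
          S.Norm M α ε (fun x => w₀ x - ws x) ∧
          ∀ (ψ : ℝ → X → ℝ) (Φ : ℝ → X → X), S.Flow M w₀ ψ Φ → S.FlowC2 M Φ →
            ∀ K : ℝ, ∃ t, 0 ≤ t ∧ ¬ S.Norm M α K (S.lapS (ψ t))) ∧
    (∀ (p q : ℝ) (M : Set ℂ), Dom p q M → M.Nonempty → ∀ (ws : ℂ → ℝ) (K₀ : ℝ), Per2 p q M ws →
      NormLe M α K₀ ws →
        ¬ QStable p q M α ws ∧
        ∀ ε > 0, ∃ w₀ : ℂ → ℝ, Per2 p q M w₀ ∧ (∫ x in Cell p q M, (w₀ x - ws x)) = 0 ∧
          NormLe M α ε (fun x => w₀ x - ws x) ∧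
          ∀ (ψ : ℝ → ℂ → ℝ) (Φ : ℝ → ℂ → ℂ), QFlow p q M w₀ ψ Φ →
            (∀ t, 0 ≤ t → ContDiffOn ℝ 2 (Φ t) M) → ∀ K : ℝ, ∃ t, 0 ≤ t ∧
              ¬ NormLe M α K (lap (ψ t))) ∧
    (∀ P : OnePoint ℂ → ℝ, (∀ x, 0 < P x) → ContDiff ℝ ∞ (fun v : ℂ => P (v : OnePoint ℂ)) →
      ContDiff ℝ ∞ (fun v : ℂ => if v = 0 then P OnePoint.infty else P ((v⁻¹ : ℂ) : OnePoint ℂ)) →
        ∃ S : Surf (OnePoint ℂ), S.κ = 1 ∧ S.P = P ∧
          (∀ (c : ℂ) (v : ℂ), ‖v‖ < S.ρ → 1 - (starRingEnd ℂ) c * v ≠ 0 →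
            S.E (c : OnePoint ℂ) v = ((mob 1 c v : ℂ) : OnePoint ℂ)) ∧
          ∀ v : ℂ, ‖v‖ < S.ρ → v ≠ 0 → S.E OnePoint.infty v = ((v⁻¹ : ℂ) : OnePoint ℂ)) ∧
    (∀ (X : Type) [TopologicalSpace X] (π : ℂ → X) (P : X → ℝ) (ρ : ℝ), 0 < ρ →
      (∀ x, ∃ z : ℂ, π z = x) → Continuous π → IsOpenMap π →
      (∀ a : ℂ, InjOn (fun w => π (a + w)) (Metric.ball 0 ρ)) →
      (∀ a b : ℂ, π a = π b → ∀ z, π (z + (b - a)) = π z) →
      (∀ x, 0 < P x) → ContDiff ℝ ∞ (fun z => P (π z)) →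
        ∃ S : Surf X, S.κ = 0 ∧ S.P = P ∧ S.ρ = ρ ∧
          ∀ c, ∃ a : ℂ, π a = c ∧ ∀ w, S.E c w = π (a + w)) ∧
    ∀ (X : Type) [TopologicalSpace X] (π : ℂ → X) (P : X → ℝ) (ρ : ℝ), 0 < ρ → ρ ≤ 1 / 4 →
      (∀ x, ∃ z : ℂ, ‖z‖ < 1 ∧ π z = x) → ContinuousOn π (Metric.ball 0 1) →
      (∀ U ⊆ Metric.ball (0 : ℂ) 1, IsOpen U → IsOpen (π '' U)) →
      (∀ a : ℂ, ‖a‖ < 1 → InjOn (fun w => π (mob (-1) a w)) (Metric.ball 0 ρ)) →
      (∀ a b : ℂ, ‖a‖ < 1 → ‖b‖ < 1 → π a = π b → ∃ σ : ℂ, ‖σ‖ = 1 ∧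
        ∀ z : ℂ, ‖z‖ < 1 → π (mob (-1) b (σ * mob (-1) (-a) z)) = π z) →
      (∀ x, 0 < P x) → ContDiffOn ℝ ∞ (fun z => P (π z)) (Metric.ball 0 1) →
        ∃ S : Surf X, S.κ = -1 ∧ S.P = P ∧ S.ρ = ρ ∧
          ∀ c, ∃ a : ℂ, ‖a‖ < 1 ∧ π a = c ∧ ∀ w, ‖w‖ < ρ → S.E c w = π (mob (-1) a w) := by
  refine ⟨fun X _ _ _ _ S M hM ws K₀ hws => ⟨S.not_stable hM hα hα1 hws, fun ε hε =>
    S.instability hM hα hα1 hws hε⟩, fun p q M hD hne ws K₀ hper hws => ⟨?_, fun ε hε =>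
    instability hD hne hα hα1 hper hws hε⟩, fun P hP hs hs' => sphere_surf P hP hs hs',
    fun X _ π P ρ hρ h1 h2 h3 h4 h5 h6 h7 => plane_surf π P hρ h1 h2 h3 h4 h5 h6 h7,
    fun X _ π P ρ hρ hρ1 h1 h2 h3 h4 h5 h6 h7 => hyperbolic_surf π P hρ hρ1 h1 h2 h3 h4 h5 h6 h7⟩
  exact not_stable hD.isOpen hws fun _ hε => instability hD hne hα hα1 hper hws hε

end Pool.Agent.Results.MP_fb2db9_an.YudovichInstability
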